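import Pool.Agent.Helper12.TS.StB
import Pool.Agent.Helper51.AJ.Basic

/-!
# Project TS for MP_d63854_co, module BPM: case beta, the model
-/

set_option autoImplicit false

namespace Pool.Agent.Helper69.TS

open Pool.Agent.Helper12.TS
open Pool.Agent.Helper51.AJ (IsMinor Planar Apex ExMinor Con Tch con_union con_singleton con_nonempty
  tch_symm tch_mono)
open Pool.Agent.Helper12.NK (rst Kc add)

private theorem con_mono_on {V : Type} {G H : SimpleGraph V} {A : Set V}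
    (h : ∀ x ∈ A, ∀ y ∈ A, G.Adj x y → H.Adj x y) (hc : Con G A) : Con H A := by
  refine SimpleGraph.Connected.mono ?_ hc
  intro x y hxy
  exact h x.1 x.2 y.1 y.2 hxy

private theorem con_with {V : Type} [Finite V] {H : SimpleGraph V} {A S : Set V} (hA : Con H A)
    (hS : ∀ s ∈ S, Tch H {s} A) : Con H (A ∪ S) := by
  have key : ∀ S' : Set V, S' ⊆ S → Con H (A ∪ S') := by
    intro S'
    refine Set.Finite.induction_on (motive := fun S' _ => S' ⊆ S → Con H (A ∪ S')) S'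
      (Set.toFinite S') ?_ ?_
    · intro _
      rw [Set.union_empty]
      exact hA
    · intro s T _ _ ih hT
      have h1 : Con H (A ∪ T) := ih fun x hx => hT (Set.mem_insert_of_mem _ hx)
      have h2 : Tch H {s} (A ∪ T) :=
        tch_mono (hS s (hT (Set.mem_insert _ _))) le_rfl Set.subset_union_left
      have h3 := con_union (con_singleton H s) h1 h2
      have h4 : ({s} : Set V) ∪ (A ∪ T) = A ∪ insert s T := by
        ext x
        simp only [Set.mem_union, Set.mem_singleton_iff, Set.mem_insert_iff]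
        tauto
      rw [h4] at h3
      exact h3
  exact key S le_rfl

theorem hBPM : StCMP → StSPM → StVOR → StMDE → StBPM := by
  intro hCMP hSPM hVOR hMDE V _ G D S A hk hS hA hD hnp
  have hdis : Disjoint A S := hA.1
  have ht : ∀ s ∈ S, Tch G {s} A := (hCMP V G S).2.2.2.1 hk hS A hA
  have hcon : Con (rst G (A ∪ S) ⊔ D) (A ∪ S) := by
    apply con_with
    · refine con_mono_on ?_ hA.2.1
      intro x hx y hy h
      exact Or.inl ⟨h, Or.inl hx, Or.inl hy⟩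
    · intro s hs
      obtain ⟨u, hu, v, hv, huv⟩ := ht s hs
      have hus : u = s := hu
      exact ⟨u, hu, v, hv, Or.inl ⟨huv, Or.inr (by rw [hus]; exact hs), Or.inl hv⟩⟩
  have hin : ∀ x y, (rst G (A ∪ S) ⊔ D).Adj x y → x ∈ A ∪ S := by
    intro x y h
    rcases h with h | h
    · exact h.2.1
    · exact Or.inr (hD h).2.1
  obtain ⟨ι, hι, Γ, φ, hc6, hkc, hnΓ, hmd, hcov⟩ := hSPM V (rst G (A ∪ S) ⊔ D) (A ∪ S) hin hcon hnp
  have hpt : ∀ i : ι, (φ i ∩ S).Nonempty → ∃ P : V → Set V,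
      (∀ t ∈ φ i ∩ S, Con G (P t) ∧ P t ∩ S = {t}) ∧
      (∀ t ∈ φ i ∩ S, ∀ t' ∈ φ i ∩ S, t ≠ t' → Disjoint (P t) (P t')) ∧
      (⋃ t ∈ φ i ∩ S, P t) = φ i := fun i hi => hVOR V G D (A ∪ S) S (φ i) hD (hmd.1 i) hi
  choose! Q hQ1 hQ2 hQ3 using hpt
  -- the index of an element
  have huniq : ∀ i j x, x ∈ φ i → x ∈ φ j → i = j := by
    intro i j x hi hj
    by_contra hij
    exact Set.disjoint_left.1 (hmd.2.1 i j hij) hi hj
  let P : V → Set V := fun t => {x | ∃ i, t ∈ φ i ∧ x ∈ Q i t}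
  have hP : ∀ i t, t ∈ φ i → P t = Q i t := by
    intro i t hi
    ext x
    constructor
    · rintro ⟨j, hj, hx⟩
      rw [huniq i j t hi hj]
      exact hx
    · intro hx
      exact ⟨i, hi, hx⟩
  have hex : ∀ t ∈ S, ∃ i, t ∈ φ i := by
    intro t ht'
    have : t ∈ ⋃ i, φ i := by
      rw [hcov]
      exact Or.inr ht'
    exact Set.mem_iUnion.1 this
  have hQφ : ∀ i, ∀ t ∈ φ i ∩ S, Q i t ⊆ φ i := by
    intro i t ht' x hx
    rw [← hQ3 i ⟨t, ht'⟩]
    exact Set.mem_biUnion ht' hx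
  have hφA : ∀ i, φ i ⊆ A ∪ S := by
    intro i x hx
    rw [← hcov]
    exact Set.mem_iUnion.2 ⟨i, hx⟩
  have g1 : ∀ t ∈ S, Con G (P t) ∧ t ∈ P t ∧ P t ⊆ A ∪ {t} := by
    intro t htS
    obtain ⟨i, hi⟩ := hex t htS
    rw [hP i t hi]
    obtain ⟨h1, h2⟩ := hQ1 i ⟨t, hi, htS⟩ t ⟨hi, htS⟩
    have h3 : t ∈ Q i t ∩ S := by
      rw [h2]
      exact rfl
    refine ⟨h1, h3.1, ?_⟩
    intro x hx
    rcases hφA i (hQφ i t ⟨hi, htS⟩ hx) with h | h
    · exact Or.inl h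
    · right
      have h4 : x ∈ Q i t ∩ S := ⟨hx, h⟩
      rw [h2] at h4
      exact h4
  have g2 : ∀ t ∈ S, ∀ t' ∈ S, t ≠ t' → Disjoint (P t) (P t') := by
    intro t htS t' htS' hne
    obtain ⟨i, hi⟩ := hex t htS
    obtain ⟨j, hj⟩ := hex t' htS'
    rw [hP i t hi, hP j t' hj]
    by_cases hij : i = j
    · subst hij
      exact hQ2 i ⟨t, hi, htS⟩ t ⟨hi, htS⟩ t' ⟨hj, htS'⟩ hne
    · exact (hmd.2.1 i j hij).mono (hQφ i t ⟨hi, htS⟩) (hQφ j t' ⟨hj, htS'⟩)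
  have g3 : ∀ i, (φ i ∩ S).Nonempty → φ i = ⋃ t ∈ φ i ∩ S, P t := by
    intro i hi
    have h1 : (⋃ t ∈ φ i ∩ S, P t) = ⋃ t ∈ φ i ∩ S, Q i t :=
      Set.iUnion₂_congr fun t ht' => hP i t ht'.1
    rw [h1]
    exact (hQ3 i hi).symm
  obtain ⟨ρ, hρ, _⟩ := hMDE V ι G D A S Γ φ P hdis hD hkc hnΓ hc6 hmd hcov g1 g2 g3
  exact ⟨ι, hι, Γ, φ, ρ, hρ⟩

end Pool.Agent.Helper69.TS
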