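import Pool.Agent.Helper12.TS.St
import Pool.Agent.Helper51.AJ.Basic

/-!
# Project TS for MP_d63854_co, module RTQ: contraction from the partition
-/

set_option autoImplicit false

namespace Pool.Agent.Helper69.TS

open Pool.Agent.Helper12.TS
open Pool.Agent.Helper51.AJ (IsMinor Planar Apex ExMinor Con Tch con_union con_singleton con_nonempty
  tch_symm)
open Pool.Agent.Helper12.NK (rst Kc add)

open Classical in
/-- the contraction of `P` to `p` and of `Q` to `q` -/
private noncomputable def ctr {V : Type} (P Q : Set V) (p q : V) (x : V) : V :=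
  if x ∈ P then p else if x ∈ Q then q else x

private theorem ctr_P {V : Type} {P Q : Set V} {p q x : V} (h : x ∈ P) : ctr P Q p q x = p :=
  if_pos h

private theorem ctr_Q {V : Type} {P Q : Set V} {p q x : V} (hd : Disjoint P Q) (h : x ∈ Q) :
    ctr P Q p q x = q := by
  unfold ctr
  rw [if_neg (fun h' => Set.disjoint_left.1 hd h' h), if_pos h]

private theorem ctr_n {V : Type} {P Q : Set V} {p q x : V} (h : x ∉ P) (h' : x ∉ Q) :
    ctr P Q p q x = x := by
  unfold ctr
  rw [if_neg h, if_neg h']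

private theorem fib {V : Type} {G : SimpleGraph V} {P Q : Set V} {p q : V} (hd : Disjoint P Q)
    (hP : Con G (insert p P)) (hQ : Con G (insert q Q)) (hpQ : p ∉ Q) (hqP : q ∉ P) (hpq : p ≠ q)
    (x : V) : Con G {z | ctr P Q p q z = ctr P Q p q x} := by
  have fp : {z | ctr P Q p q z = p} = insert p P := by
    ext z
    simp only [Set.mem_setOf_eq, Set.mem_insert_iff]
    constructor
    · intro h
      by_cases h1 : z ∈ P
      · exact Or.inr h1
      · by_cases h2 : z ∈ Q
        · rw [ctr_Q hd h2] at h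
          exact absurd h.symm hpq
        · rw [ctr_n h1 h2] at h
          exact Or.inl h
    · rintro (h | h)
      · by_cases h1 : z ∈ P
        · exact ctr_P h1
        · rw [ctr_n h1 (by rw [h]; exact hpQ), h]
      · exact ctr_P h
  have fq : {z | ctr P Q p q z = q} = insert q Q := by
    ext z
    simp only [Set.mem_setOf_eq, Set.mem_insert_iff]
    constructor
    · intro h
      by_cases h1 : z ∈ P
      · rw [ctr_P h1] at h
        exact absurd h hpq
      · by_cases h2 : z ∈ Q
        · exact Or.inr h2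
        · rw [ctr_n h1 h2] at h
          exact Or.inl h
    · rintro (h | h)
      · by_cases h2 : z ∈ Q
        · exact ctr_Q hd h2
        · rw [ctr_n (by rw [h]; exact hqP) h2, h]
      · exact ctr_Q hd h
  by_cases h1 : x ∈ P
  · rw [ctr_P h1, fp]
    exact hP
  by_cases h2 : x ∈ Q
  · rw [ctr_Q hd h2, fq]
    exact hQ
  rw [ctr_n h1 h2]
  by_cases h3 : x = p
  · rw [h3, fp]
    exact hP
  by_cases h4 : x = q
  · rw [h4, fq]
    exact hQ
  have fx : {z | ctr P Q p q z = x} = {x} := by
    ext z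
    simp only [Set.mem_setOf_eq, Set.mem_singleton_iff]
    constructor
    · intro h
      by_cases h5 : z ∈ P
      · rw [ctr_P h5] at h
        exact absurd h.symm h3
      · by_cases h6 : z ∈ Q
        · rw [ctr_Q hd h6] at h
          exact absurd h.symm h4
        · rw [ctr_n h5 h6] at h
          exact h
    · intro h
      rw [h]
      exact ctr_n h1 h2
  rw [fx]
  exact con_singleton G x

private theorem con_ins {V : Type} {G : SimpleGraph V} {P : Set V} {p : V} (h : Con G P)
    (ht : Tch G {p} P) : Con G (insert p P) := by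
  rw [Set.insert_eq]
  exact con_union (con_singleton G p) h ht

private theorem con_ins' {V : Type} {G : SimpleGraph V} {P : Set V} {p : V} (h : Con G P)
    (hp : p ∈ P) : Con G (insert p P) := by
  rw [Set.insert_eq_of_mem hp]
  exact h

private theorem hRTQ0 (V : Type) [Finite V] (G : SimpleGraph V) (S C : Set V) (hS : S.ncard = 3)
    (hC : Cmp G S C) (hR : Rtp G S C) : ∃ y ρ, Rty G S C y ρ := by
  have hdis : ∀ x, x ∈ C → x ∉ S := fun x hx => Set.disjoint_left.1 hC.1 hx
  rcases hR with ⟨Y, Z, hYZ, hd, hY, hZ, hT, i, hi, hiZ, hsY, j, hj, hji, hjZ⟩ |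
    ⟨z, Y, Z, hzY, hzZ, hins, hd, hY, hZ, hT, hTY, hTZ, i, hi, j, hj, k, hk, hij, hjk, hik, hiY,
      hjZ, hzk⟩
  · obtain ⟨y, hy⟩ := con_nonempty hY
    have hYC : ∀ x ∈ Y, x ∈ C := fun x hx => hYZ ▸ Or.inl hx
    have hZC : ∀ x ∈ Z, x ∈ C := fun x hx => hYZ ▸ Or.inr hx
    have hyC := hYC y hy
    have hyi : y ≠ i := fun h => hdis y hyC (h ▸ hi)
    have hSn : ∀ s ∈ S, ctr Y Z y i s = s := fun s hs =>
      ctr_n (fun h => hdis s (hYC s h) hs) (fun h => hdis s (hZC s h) hs)
    refine ⟨y, ctr Y Z y i, hyC, ctr_P hy, fun x hx => ctr_n (fun h => hx (hYC x h))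
      (fun h => hx (hZC x h)), ?_, ?_, ?_, ?_⟩
    · intro x hx
      rw [← hYZ] at hx
      rcases hx with hx | hx
      · exact Or.inl (ctr_P hx)
      · exact Or.inr (by rw [ctr_Q hd hx]; exact hi)
    · exact fib hd (con_ins' hY hy) (con_ins hZ hiZ) (fun h => Set.disjoint_left.1 hd hy h)
        (fun h => hdis i (hYC i h) hi) hyi
    · intro s hs
      refine ⟨fun h => hdis y hyC (h ▸ hs), ?_⟩
      by_cases hsi : s = i
      · obtain ⟨u, hu, v, hv, huv⟩ := hT
        exact ⟨u, trivial, v, trivial, ctr_P hu, by rw [ctr_Q hd hv, hsi], huv⟩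
      · obtain ⟨u, hu, v, hv, huv⟩ := hsY s hs hsi
        have hu' : u = s := hu
        rw [hu'] at huv
        exact ⟨v, trivial, s, trivial, ctr_P hv, hSn s hs, huv.symm⟩
    · obtain ⟨u, hu, v, hv, huv⟩ := hjZ
      have hu' : u = j := hu
      rw [hu'] at huv
      exact ⟨j, hj, i, hi, hji, j, trivial, v, trivial, hSn j hj, ctr_Q hd hv, huv⟩
  · have hzC : z ∈ C := hins ▸ Set.mem_insert _ _
    have hYC : ∀ x ∈ Y, x ∈ C := fun x hx => hins ▸ Or.inr (Or.inl hx)
    have hZC : ∀ x ∈ Z, x ∈ C := fun x hx => hins ▸ Or.inr (Or.inr hx)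
    have hSn : ∀ s ∈ S, ctr Y Z i j s = s := fun s hs =>
      ctr_n (fun h => hdis s (hYC s h) hs) (fun h => hdis s (hZC s h) hs)
    have hzr : ctr Y Z i j z = z := ctr_n hzY hzZ
    have hSe : S = {i, j, k} := by
      have h1 : ({i, j, k} : Set V) ⊆ S := by
        rintro x (rfl | rfl | rfl)
        · exact hi
        · exact hj
        · exact hk
      have h2 : ({i, j, k} : Set V).ncard = 3 := Set.ncard_eq_three.2 ⟨i, j, k, hij, hik, hjk, rfl⟩
      exact (Set.eq_of_subset_of_ncard_le h1 (by rw [hS, h2]) (Set.toFinite S)).symm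
    refine ⟨z, ctr Y Z i j, hzC, hzr, fun x hx => ctr_n (fun h => hx (hYC x h))
      (fun h => hx (hZC x h)), ?_, ?_, ?_, ?_⟩
    · intro x hx
      rw [← hins] at hx
      rcases hx with hx | hx | hx
      · exact Or.inl (by rw [hx]; exact hzr)
      · exact Or.inr (by rw [ctr_P hx]; exact hi)
      · exact Or.inr (by rw [ctr_Q hd hx]; exact hj)
    · exact fib hd (con_ins hY hiY) (con_ins hZ hjZ) (fun h => hdis i (hZC i h) hi)
        (fun h => hdis j (hYC j h) hj) hij
    · intro s hs
      refine ⟨fun h => hdis z hzC (h ▸ hs), ?_⟩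
      rw [hSe] at hs
      rcases hs with rfl | rfl | rfl
      · obtain ⟨u, hu, v, hv, huv⟩ := hTY
        have hu' : u = z := hu
        rw [hu'] at huv
        exact ⟨z, trivial, v, trivial, hzr, ctr_P hv, huv⟩
      · obtain ⟨u, hu, v, hv, huv⟩ := hTZ
        have hu' : u = z := hu
        rw [hu'] at huv
        exact ⟨z, trivial, v, trivial, hzr, ctr_Q hd hv, huv⟩
      · exact ⟨z, trivial, s, trivial, hzr, hSn s hk, hzk⟩
    · obtain ⟨u, hu, v, hv, huv⟩ := hT
      exact ⟨i, hi, j, hj, hij, u, trivial, v, trivial, ctr_P hu, ctr_Q hd hv, huv⟩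

/-- module RTQ of project TS -/
theorem hRTQ : StQUO → StRTQ := fun _ V _ G S C hS hC hR => hRTQ0 V G S C hS hC hR

end Pool.Agent.Helper69.TS
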